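import Pool.Agent.Q170.GO.Semi

/-!
# Geometric flat bundles and families of cubics

Let `F` be the function field of the smooth complex variety `Y_ℂ` (of a dense open subvariety, if `Y` is a
stack). A flat bundle on a dense open part of `Y_ℂ` is determined, up to restriction to a smaller open part, by
its generic fibre, a vector space over `F` with an integrable connection, that is a module over the ring of
differential operators of `F`. Simple flat bundles on `Y_ℂ` have simple generic fibres.

`D.H j X` is the relative de Rham cohomology with compact supports of the schemes `X` over `F` with the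
Gauss-Manin connection, and `D.G w j X` its part of weight `w`. For smooth projective `X` this is the
Gauss-Manin flat bundle of a smooth projective family over a dense open part of `Y_ℂ`.

**Theorem.** (1) Let `E = S_1 ⊕ ⋯ ⊕ S_n` be a semisimple flat bundle, the `S_i` simple. Then `E` is geometric
if and only if every `S_i` that is not the trivial bundle of rank one is a subquotient of the part of
weight `j - 1` of the Gauss-Manin flat bundle `H^j_c(T_t = 1)` of a family `T_t(x, y, z) = 1` of smooth affine
cubics, `T` being a trilinear form with coefficients in `F`, for some `j`.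

(2) A simple flat bundle `E` which is not trivial is a subquotient of the cohomology of a smooth projective
family of relative dimension at most `d` if and only if it is a subquotient of `H^j_c(T_t = 1)` for a
trilinear form `T` over `F` with a block of at most `d + 2` variables.
-/

set_option autoImplicit false

open CategoryTheory CategoryTheory.Limits AlgebraicGeometry Pool.Agent.Y116.UV Pool.Agent.Z125.UN
  Pool.Agent.Q193.LT Pool.Agent.Q148.LI Pool.Agent.Q170.GO

namespace Pool.Agent.Results.MP_e3793a_ag.FamiliesOfCubics

attribute [local instance] HasFiniteBiproducts.of_hasFiniteProducts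

/-- The ring of differential operators of the field `F` over `ℂ`, generated by the multiplications and the
derivations. -/
noncomputable def DiffOps (F : Type) [Field F] [Algebra ℂ F] : Subalgebra ℂ (Module.End ℂ F) :=
  Algebra.adjoin ℂ (Set.range (LinearMap.mulLeft ℂ) ∪
    Set.range fun d : Derivation ℂ F F => (d : F →ₗ[ℂ] F))

/-- Generic fibres of flat bundles: vector spaces over `F` with an integrable connection. -/
abbrev Flat (F : Type) [Field F] [Algebra ℂ F] : Type 1 := ModuleCat.{0} (DiffOps F)

variable {F : Type} [Field F] [Algebra ℂ F]

/-- **Families of cubics decide.** See the explanations above. -/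
theorem result {D : Data F (Flat F)} {one : Flat F} (h : IsGeo D one) (hc : IsConst D one)
    (hneg : ∀ Y : Sch F, SmoothProj Y → ∀ i : ℤ, i < 0 → IsZero (D.H i Y)) :
    (∀ (n : ℕ) (S : Fin n → Flat F), (∀ i, Simple (S i)) → ∀ E : Flat F,
      Nonempty (E ≅ ⨁ S) → (D.Geometric E ↔ ∀ i, Nonempty (S i ≅ one) ∨
        ∃ (a b c : ℕ) (T : Fin a → Fin b → Fin c → F), ∃ j,
          Sub (S i) (D.G (j - 1) j (hypS T)))) ∧
    ∀ E : Flat F, Simple E → IsEmpty (E ≅ one) → ∀ d : ℕ,
      ((∃ X : Sch F, SmoothProj X ∧ topologicalKrullDim X.left ≤ d ∧ ∃ j, Sub E (D.H j X)) ↔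
        ∃ (a b c : ℕ) (T : Fin a → Fin b → Fin c → F),
          (a ≤ d + 2 ∨ b ≤ d + 2 ∨ c ≤ d + 2) ∧ ∃ j, Sub E (D.H j (hypS T))) := by
  constructor
  · rintro n S hS E ⟨e⟩
    rw [← semi_iff h hc hneg S hS]
    exact ⟨fun ⟨Y, hY, i, hi⟩ => ⟨Y, hY, i, hi.iso_left e⟩,
      fun ⟨Y, hY, i, hi⟩ => ⟨Y, hY, i, hi.iso_left e.symm⟩⟩
  · intro E hE h1 d
    have : CharZero F := charZero_of_injective_algebraMap (algebraMap ℂ F).injective
    have hT : D.NotTate one E := by
      intro a
      refine ⟨fun e => ?_⟩
      obtain ⟨e'⟩ := hc.triv a
      exact h1.false (e ≪≫ e'.app one)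
    have h2 := from_iff h hT d
    unfold Data.From at h2
    simp only [occ_triv hc] at h2
    exact h2

end Pool.Agent.Results.MP_e3793a_ag.FamiliesOfCubics
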