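import Mathlib

/-!
# Geometricity of flat bundles: Artin neighbourhoods in affine space and the thrice-punctured line

All spaces are connected and over `ℚ̄`. Let `Q n` be the statement of question Q1 for all `Y` of dimension
`n`: every semisimple quasi-geometric flat bundle on `Y` is geometric. We write bundle for semisimple
quasi-geometric flat bundle.

An elementary open subset of the affine space `𝔸^n` is a dense open subset `W` of the form
`f_1(x_1) ≠ 0, f_2(x_1, x_2) ≠ 0, ..., f_n(x_1, ..., x_n) ≠ 0` in suitable linear coordinates, where `f_i` is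
monic in `x_i` and its discriminant with respect to `x_i` has no zeros on the elementary open subset given
by `f_1, ..., f_(i-1)`. Then `W(ℂ)` is an iterated fibration with fibres `ℂ ∖ {finitely many points}`; its
fundamental group is an iterated extension of free groups, and the higher homotopy groups are zero.

**Theorem.**

1. `Q n` is true if and only if all bundles on all elementary open subsets of `𝔸^n` are geometric.
2. `Q 1` is true if and only if all bundles on `ℙ¹ ∖ {0, 1, ∞}` are geometric.
3. `Q (n + 1)` implies `Q n`. Question Q1 has a positive answer if and only if for infinitely many `n` all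
   bundles on all elementary open subsets of `𝔸^n` are geometric.

Proof: a dense open subset of `Y` has a finite étale covering by a variety, and a dense open subset of this
variety is finite étale over an elementary open subset of `𝔸^n` (Artin), or over `ℙ¹ ∖ {0, 1, ∞}` if
`n = 1` (Belyi). Direct and inverse images of bundles for finite étale morphisms are bundles, and
both preserve geometric bundles (the direct image of the Gauss-Manin bundle of `P → U → V` is that of `P → V`).
These facts are hypotheses in `IsSetting`.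
-/

set_option autoImplicit false

namespace Pool.Agent.Results.MP_e3793a_ag.ThricePuncturedLine

/-- The spaces `Y` of the question and semisimple quasi-geometric flat bundles. -/
structure Setting where
  /-- complements of normal crossing divisors in smooth proper Deligne-Mumford stacks over `ℚ̄` of
  dimension `n`, connected -/
  Sp : ℕ → Type
  /-- it is a variety -/
  IsVar : ∀ {n : ℕ}, Sp n → Prop
  /-- it is an elementary open subset of affine space -/
  Elem : ∀ {n : ℕ}, Sp n → Prop
  /-- the projective line without the points `0, 1, ∞` -/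
  line : Sp 1
  /-- dense open immersions `U → Y` -/
  Opn : ∀ {n : ℕ}, Sp n → Sp n → Type
  /-- (representable) finite étale morphisms `U → Y` -/
  Et : ∀ {n : ℕ}, Sp n → Sp n → Type
  /-- isomorphism classes of semisimple quasi-geometric flat bundles -/
  Bun : ∀ {n : ℕ}, Sp n → Type
  /-- direct summands -/
  Sub : ∀ {n : ℕ} {Y : Sp n}, Bun Y → Bun Y → Prop
  /-- geometric -/
  Geo : ∀ {n : ℕ} {Y : Sp n}, Bun Y → Prop
  /-- restriction to an open subset -/
  restr : ∀ {n : ℕ} {U Y : Sp n}, Opn U Y → Bun Y → Bun U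
  /-- direct image -/
  push : ∀ {n : ℕ} {U Y : Sp n}, Et U Y → Bun U → Bun Y
  /-- inverse image -/
  pull : ∀ {n : ℕ} {U Y : Sp n}, Et U Y → Bun Y → Bun U
  /-- the product with the affine line -/
  timesLine : ∀ {n : ℕ}, Sp n → Sp (n + 1)
  /-- inverse image under the projection -/
  pr : ∀ {n : ℕ} {Y : Sp n}, Bun Y → Bun (timesLine Y)

/-- The known facts. -/
structure IsSetting (D : Setting) : Prop where
  /-- a dense open subset has a finite étale covering by a variety -/
  stack : ∀ {n : ℕ} (Y : D.Sp n), ∃ U V, Nonempty (D.Opn U Y) ∧ Nonempty (D.Et V U) ∧ D.IsVar V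
  /-- Noether normalization and Artin's theorem on elementary neighbourhoods -/
  artin : ∀ {n : ℕ} (V : D.Sp n), D.IsVar V →
    ∃ U W, Nonempty (D.Opn U V) ∧ Nonempty (D.Et U W) ∧ D.Elem W
  /-- Belyi's theorem -/
  belyi : ∀ V : D.Sp 1, D.IsVar V → ∃ U, Nonempty (D.Opn U V) ∧ Nonempty (D.Et U D.line)
  /-- geometric is a condition on a dense open subset -/
  geo_restr : ∀ {n : ℕ} {U Y : D.Sp n} (j : D.Opn U Y) (E : D.Bun Y), D.Geo (D.restr j E) → D.Geo E
  geo_pull : ∀ {n : ℕ} {U Y : D.Sp n} (f : D.Et U Y) (E : D.Bun Y), D.Geo E → D.Geo (D.pull f E)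
  geo_push : ∀ {n : ℕ} {U Y : D.Sp n} (f : D.Et U Y) (E : D.Bun U), D.Geo E → D.Geo (D.push f E)
  geo_sub : ∀ {n : ℕ} {Y : D.Sp n} (N M : D.Bun Y), D.Sub N M → D.Geo M → D.Geo N
  /-- a bundle is a summand of the inverse image of its direct image -/
  counit : ∀ {n : ℕ} {U Y : D.Sp n} (f : D.Et U Y) (E : D.Bun U), D.Sub E (D.pull f (D.push f E))
  /-- a bundle is a summand of the direct image of its inverse image -/
  unit : ∀ {n : ℕ} {U Y : D.Sp n} (f : D.Et U Y) (E : D.Bun Y), D.Sub E (D.push f (D.pull f E))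
  /-- restriction of a family of varieties over `Y × 𝔸¹` to `Y × {a}`, `a` general -/
  geo_pr : ∀ {n : ℕ} {Y : D.Sp n} (E : D.Bun Y), D.Geo (D.pr E) → D.Geo E

variable (D : Setting)

/-- All semisimple quasi-geometric flat bundles on `Y` are geometric. -/
def Holds {n : ℕ} (Y : D.Sp n) : Prop := ∀ E : D.Bun Y, D.Geo E

/-- Question Q1 in dimension `n`. -/
def Q (n : ℕ) : Prop := ∀ Y : D.Sp n, Holds D Y

variable {D}

lemma holds_of (h : IsSetting D) {n : ℕ} {V U W : D.Sp n} (j : D.Opn U V) (f : D.Et U W)
    (hW : Holds D W) : Holds D V := fun E =>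
  h.geo_restr j E (h.geo_sub _ _ (h.counit f _) (h.geo_pull f _ (hW _)))

lemma holds_of_cover (h : IsSetting D) {n : ℕ} {Y U V : D.Sp n} (j : D.Opn U Y) (f : D.Et V U)
    (hV : Holds D V) : Holds D Y := fun E =>
  h.geo_restr j E (h.geo_sub _ _ (h.unit f _) (h.geo_push f _ (hV _)))

lemma q_of_var (h : IsSetting D) {n : ℕ} (h1 : ∀ V : D.Sp n, D.IsVar V → Holds D V) : Q D n := by
  intro Y
  obtain ⟨U, V, ⟨j⟩, ⟨f⟩, hV⟩ := h.stack Y
  exact holds_of_cover h j f (h1 V hV)

lemma q_iff (h : IsSetting D) (n : ℕ) : Q D n ↔ ∀ W : D.Sp n, D.Elem W → Holds D W := by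
  refine ⟨fun h1 W _ => h1 W, fun h1 => q_of_var h fun V hV => ?_⟩
  obtain ⟨U, W, ⟨j⟩, ⟨f⟩, hW⟩ := h.artin V hV
  exact holds_of h j f (h1 W hW)

lemma q_succ (h : IsSetting D) {n : ℕ} (h1 : Q D (n + 1)) : Q D n := fun Y E =>
  h.geo_pr E (h1 (D.timesLine Y) _)

lemma q_le (h : IsSetting D) {m n : ℕ} (hmn : m ≤ n) (h1 : Q D n) : Q D m := by
  induction n, hmn using Nat.le_induction with
  | base => exact h1
  | succ k _ ih => exact ih (q_succ h h1)

/-- **Geometricity of flat bundles on elementary open subsets of affine space and on the thrice-punctured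
line.** See the explanations above. -/
theorem result (h : IsSetting D) :
    (∀ n, Q D n ↔ ∀ W : D.Sp n, D.Elem W → Holds D W) ∧
    (Q D 1 ↔ Holds D D.line) ∧
    (∀ n, Q D (n + 1) → Q D n) ∧
    ((∀ n, Q D n) ↔ ∀ k : ℕ, ∃ n, k ≤ n ∧ ∀ W : D.Sp n, D.Elem W → Holds D W) := by
  refine ⟨q_iff h, ⟨fun h1 => h1 _, fun h1 => q_of_var h fun V hV => ?_⟩, fun n => q_succ h,
    ⟨fun h1 k => ⟨k, le_rfl, fun W _ => h1 k W⟩, fun h1 n => ?_⟩⟩
  · obtain ⟨U, ⟨j⟩, ⟨f⟩⟩ := h.belyi V hV
    exact holds_of h j f h1
  · obtain ⟨l, hl, h2⟩ := h1 n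
    exact q_le h hl ((q_iff h l).mpr h2)

end Pool.Agent.Results.MP_e3793a_ag.ThricePuncturedLine
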